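import Mathlib

namespace Pool.Agent.H.MP_c76eb3_co

open Finset

def Mv (S : Finset ℕ) (k : ℕ) : Prop := (k = 0 ∨ k ∈ S) ∧ k + 1 ∉ S

def mv (S : Finset ℕ) (k : ℕ) : Finset ℕ := insert (k + 1) (S.erase k)

theorem mem_mv {S : Finset ℕ} {k x : ℕ} : x ∈ mv S k ↔ x = k + 1 ∨ x ≠ k ∧ x ∈ S := by simp [mv]

theorem sum_mv {S : Finset ℕ} {k : ℕ} (h : Mv S k) : ∑ x ∈ mv S k, x = ∑ x ∈ S, x + 1 := by
  rw [mv, sum_insert (by simp [h.2])]
  by_cases e : k ∈ S
  · rw [← add_sum_erase S _ e]; ring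
  · rw [erase_eq_of_notMem e, h.1.resolve_right e]; ring

/-- between a bead and a later hole there is a move -/
theorem gap {S : Finset ℕ} {a b : ℕ} (ha : a = 0 ∨ a ∈ S) (hab : a < b) (hb : b ∉ S) :
    ∃ k, a ≤ k ∧ k < b ∧ Mv S k := by
  induction b, hab using Nat.le_induction with
  | base => exact ⟨a, le_rfl, by omega, ha, hb⟩
  | succ n hn ih =>
    by_cases e : n ∈ S
    · exact ⟨n, by omega, by omega, Or.inr e, hb⟩
    · obtain ⟨k, h1, h2, h3⟩ := ih e
      exact ⟨k, h1, by omega, h3⟩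

def cnt (S : Finset ℕ) (j : ℕ) : ℕ := (S.filter (j < ·)).card

theorem cnt_mv {S : Finset ℕ} {k : ℕ} (h : Mv S k) (j : ℕ) :
    cnt (mv S k) j = cnt S j + if j = k then 1 else 0 := by
  unfold cnt
  split_ifs with e
  · subst e
    rw [← card_insert_of_notMem (a := j + 1) (by simp [h.2])]
    congr 1
    ext x
    simp only [mem_filter, mem_mv, mem_insert]
    constructor
    · rintro ⟨rfl | h, h'⟩
      · exact Or.inl rfl
      · exact Or.inr ⟨h.2, h'⟩
    · rintro (rfl | h)
      · exact ⟨Or.inl rfl, by omega⟩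
      · exact ⟨Or.inr ⟨by omega, h.1⟩, h.2⟩
  · rcases lt_or_gt_of_ne e with e | e
    · have hk : k ∈ S := h.1.resolve_left (by omega)
      have : (mv S k).filter (j < ·) = insert (k + 1) ((S.filter (j < ·)).erase k) := by
        ext x
        simp only [mem_filter, mem_mv, mem_insert, mem_erase]
        constructor
        · rintro ⟨rfl | h, h'⟩
          · exact Or.inl rfl
          · exact Or.inr ⟨h.1, h.2, h'⟩
        · rintro (rfl | h)
          · exact ⟨Or.inl rfl, by omega⟩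
          · exact ⟨Or.inr ⟨h.1, h.2.1⟩, h.2.2⟩
      rw [this, card_insert_of_notMem (by simp [h.2]), card_erase_add_one (by simp [hk, e]), add_zero]
    · rw [add_zero]
      congr 1
      ext x
      simp only [mem_filter, mem_mv]
      constructor
      · rintro ⟨rfl | h, h'⟩
        · omega
        · exact ⟨h.2, h'⟩
      · rintro ⟨h, h'⟩
        exact ⟨Or.inr ⟨by omega, h⟩, h'⟩

theorem mv_inj {S T : Finset ℕ} {k : ℕ} (h0 : 0 ∉ S) (h0' : 0 ∉ T) (h : Mv S k) (h' : Mv T k)
    (e : mv S k = mv T k) : S = T := by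
  ext x
  have := congrArg (x ∈ ·) e
  simp only [mem_mv, eq_iff_iff] at this
  by_cases e1 : x = k + 1
  · subst e1; simp [h.2, h'.2]
  by_cases e2 : x = k
  · subst e2
    by_cases e3 : x = 0
    · subst e3; simp [h0, h0']
    · simp [h.1.resolve_left e3, h'.1.resolve_left e3]
  simpa [e1, e2] using this

variable {R : Finset ℕ → Finset ℕ → Prop} (hs : ∀ S T, R S T → R T S) (h0 : ∀ S T, R S T → 0 ∉ S)
  (h1 : ∀ S T, R S T → ∑ x ∈ S, x = ∑ x ∈ T, x)
  (h2 : ∀ S T, R S T → ∃ f : ℕ → ℕ, (∀ k, Mv S k → Mv T (f k) ∧ R (mv S k) (mv T (f k))) ∧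
    ∀ k l, Mv S k → Mv S l → f k = f l → k = l)

theorem mv_sub {S : Finset ℕ} {k m : ℕ} (hS : S ⊆ Icc 1 m) (hk : k < m) : mv S k ⊆ Icc 1 m := by
  intro x hx
  rcases mem_mv.1 hx with rfl | h
  · exact mem_Icc.2 ⟨by omega, hk⟩
  · exact hS h.2

theorem full {S : Finset ℕ} {m : ℕ} (hS : S ⊆ Icc 1 m) (h : ∑ x ∈ Icc 1 m, x ≤ ∑ x ∈ S, x) :
    S = Icc 1 m := by
  by_contra e
  obtain ⟨x, hx, hx'⟩ := exists_of_ssubset (hS.ssubset_of_ne e)
  have := sum_lt_sum_of_subset (f := fun x => x) hS hx hx' (mem_Icc.1 hx).1 (fun _ _ _ => Nat.zero_le _)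
  omega

include hs h0 h1 h2

theorem bound (m s : ℕ) : ∀ S T, R S T → S ⊆ Icc 1 m → ∑ x ∈ S, x + s = ∑ x ∈ Icc 1 m, x →
    T ⊆ Icc 1 m := by
  induction s with
  | zero =>
    intro S T h hS e
    obtain rfl := full hS (by omega)
    obtain ⟨f, f1, f2⟩ := h2 _ _ (hs _ _ h)
    have u : ∀ k, Mv (Icc 1 m) k → k = m := fun k hk => by
      have a := hk.1; have b := hk.2
      simp only [mem_Icc] at a b
      omega
    have u' : ∀ k l, Mv T k → Mv T l → k = l := fun k l hk hl =>
      f2 k l hk hl ((u _ (f1 k hk).1).trans (u _ (f1 l hl).1).symm)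
    by_contra hc
    obtain ⟨x, hx, hx'⟩ := not_subset.1 hc
    have x0 : x ≠ 0 := fun e => h0 _ _ (hs _ _ h) (e ▸ hx)
    have hm : m < x := by simp only [mem_Icc] at hx'; omega
    have sub : Icc 1 m ⊆ T := fun y hy => by
      by_contra hy'
      obtain ⟨k, -, k2, k3⟩ := gap (Or.inl rfl) (mem_Icc.1 hy).1 hy'
      obtain ⟨l, l1, -, l3⟩ := gap (b := T.sup id + 1) (Or.inr hx)
        (Nat.lt_succ_of_le (le_sup (f := id) hx)) (fun h => by
          have := le_sup (f := id) h; simp only [id] at this; omega)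
      have := u' k l k3 l3
      have := (mem_Icc.1 hy).2
      omega
    have := sum_lt_sum_of_subset (f := fun x => x) sub hx hx' (by omega) (fun _ _ _ => Nat.zero_le _)
    have := h1 _ _ h
    omega
  | succ s ih =>
    intro S T h hS e
    have : ¬ Icc 1 m ⊆ S := fun hc => by
      have := sum_le_sum_of_subset (f := fun x => x) hc
      omega
    obtain ⟨x, hx, hx'⟩ := not_subset.1 this
    obtain ⟨k, -, k2, k3⟩ := gap (Or.inl rfl) (mem_Icc.1 hx).1 hx'
    obtain ⟨f, f1, -⟩ := h2 _ _ h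
    have := ih _ _ (f1 k k3).2 (mv_sub hS (k2.trans_le (mem_Icc.1 hx).2)) (by rw [sum_mv k3]; omega)
    intro y hy
    by_cases e : y = f k
    · have a := mem_Icc.1 (this (mem_mv.2 (Or.inl rfl)))
      have y0 : y ≠ 0 := fun e => h0 _ _ (hs _ _ h) (e ▸ hy)
      exact mem_Icc.2 ⟨by omega, by omega⟩
    · exact this (mem_mv.2 (Or.inr ⟨e, hy⟩))

theorem bound' {m : ℕ} {S T : Finset ℕ} (h : R S T) (hS : S ⊆ Icc 1 m) : T ⊆ Icc 1 m := by
  obtain ⟨s, e⟩ := Nat.exists_eq_add_of_le (sum_le_sum_of_subset (f := fun x => x) hS)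
  exact bound hs h0 h1 h2 m s S T h hS e.symm

theorem core (m s : ℕ) : ∀ S T, R S T → S ⊆ Icc 1 m → ∑ x ∈ S, x + s = ∑ x ∈ Icc 1 m, x →
    S = T ∨ s = 3 := by
  induction s with
  | zero =>
    intro S T h hS e
    have := h1 _ _ h
    exact Or.inl ((full hS (by omega)).trans (full (bound' hs h0 h1 h2 h hS) (by omega)).symm)
  | succ s ih =>
    have ch : ∀ S T, R S T → S ⊆ Icc 1 m → ∃ f : ℕ → ℕ, (∀ k < m, Mv S k → f k < m ∧ Mv T (f k) ∧
        R (mv S k) (mv T (f k))) ∧ ∀ k l, Mv S k → Mv S l → f k = f l → k = l := fun S T h hS => by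
      obtain ⟨f, f1, f2⟩ := h2 _ _ h
      refine ⟨f, fun k hk a => ⟨?_, f1 k a⟩, f2⟩
      exact (mem_Icc.1 (bound' hs h0 h1 h2 (f1 k a).2 (mv_sub hS hk) (mem_mv.2 (Or.inl rfl)))).2
    by_cases e3 : s = 3
    · subst e3
      have cl : ∀ S, S ⊆ Icc 1 m → ∑ x ∈ S, x + 4 = ∑ x ∈ Icc 1 m, x →
          Icc 1 m \ S = {4} ∨ Icc 1 m \ S = {1, 3} := fun S hS e => by
        have a : ∑ x ∈ Icc 1 m \ S, x = 4 := by
          have := sum_sdiff (f := fun x => x) hS
          omega
        have b : Icc 1 m \ S ∈ powerset (Icc 1 4) := mem_powerset.2 fun x hx => mem_Icc.2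
          ⟨(mem_Icc.1 (mem_sdiff.1 hx).1).1, a ▸ single_le_sum (f := fun x => x) (fun _ _ => Nat.zero_le _) hx⟩
        exact (by decide +kernel : ∀ H ∈ powerset (Icc 1 4), ∑ x ∈ H, x = 4 → H = {4} ∨ H = {1, 3}) _ b a
      have ne : ∀ S T, R S T → S ⊆ Icc 1 m → Icc 1 m \ S = {1, 3} → Icc 1 m \ T ≠ {4} := by
        intro S T h hS a b
        obtain ⟨f, f1, f2⟩ := ch S T h hS
        have a := fun x => congrArg (x ∈ ·) a
        have b := fun x => congrArg (x ∈ ·) b
        simp only [mem_sdiff, mem_Icc, mem_insert, mem_singleton, eq_iff_iff] at a b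
        have a1 := (a 1).2 (by omega)
        have a3 := (a 3).2 (by omega)
        have m0 : Mv S 0 := ⟨Or.inl rfl, a1.2⟩
        have m2 : Mv S 2 := ⟨Or.inr (by by_contra hc; have := (a 2).1 ⟨by omega, hc⟩; omega), a3.2⟩
        obtain ⟨p1, p2, -⟩ := f1 0 (by omega) m0
        obtain ⟨q1, q2, -⟩ := f1 2 (by omega) m2
        have := (b _).1 ⟨by omega, p2.2⟩
        have := (b _).1 ⟨by omega, q2.2⟩
        have := f2 0 2 m0 m2 (by omega)
        omega
      intro S T h hS e
      have hT := bound' hs h0 h1 h2 h hS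
      have := h1 _ _ h
      have eq : Icc 1 m \ S = Icc 1 m \ T := by
        rcases cl S hS e with a | a <;> rcases cl T hT (by omega) with b | b
        · rw [a, b]
        · exact absurd a (ne T S (hs _ _ h) hT b)
        · exact absurd b (ne S T h hS a)
        · rw [a, b]
      left
      rw [← Finset.sdiff_sdiff_eq_self hS, eq, Finset.sdiff_sdiff_eq_self hT]
    have un : ∀ S T, R S T → S ≠ T → S ⊆ Icc 1 m → ∑ x ∈ S, x + (s + 1) = ∑ x ∈ Icc 1 m, x →
        ∀ k < m, Mv S k → (∃ k' < m, k ≠ k' ∧ Mv T k' ∧ mv S k = mv T k') ∧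
          ∀ l < m, Mv S l → l = k := fun S T h ne hS e => by
      obtain ⟨f, f1, -⟩ := ch S T h hS
      have a : ∀ k < m, Mv S k → k ≠ f k ∧ mv S k = mv T (f k) := fun k hk a => by
        obtain ⟨-, b, c⟩ := f1 k hk a
        have e := (ih _ _ c (mv_sub hS hk) (by rw [sum_mv a]; omega)).resolve_right e3
        refine ⟨fun e' => ne ?_, e⟩
        rw [← e'] at e b
        exact mv_inj (h0 _ _ h) (h0 _ _ (hs _ _ h)) a b e
      intro k hk b
      refine ⟨⟨f k, (f1 k hk b).1, (a k hk b).1, (f1 k hk b).2.1, (a k hk b).2⟩, fun l hl c => ?_⟩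
      by_contra ne
      have p := cnt_mv b l
      have q := cnt_mv (f1 k hk b).2.1 l
      have r := cnt_mv c l
      have t := cnt_mv (f1 l hl c).2.1 l
      rw [← (a k hk b).2] at q
      rw [← (a l hl c).2, if_neg (a l hl c).1] at t
      rw [if_neg ne] at p
      rw [if_pos rfl] at r
      omega
    have lt : ∀ S T, R S T → S ≠ T → S ⊆ Icc 1 m → ∑ x ∈ S, x + (s + 1) = ∑ x ∈ Icc 1 m, x →
        ∀ k k', k < k' → k' < m → Mv S k → Mv T k' → mv S k = mv T k' → s + 1 = 3 := by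
      intro S T h ne hS e k k' hk hk' a b c
      have hT := bound' hs h0 h1 h2 h hS
      have e' := h1 _ _ h
      have uS := (un S T h ne hS e k (by omega) a).2
      have uT := (un T S (hs _ _ h) ne.symm hT (by omega) k' hk' b).2
      have c := fun x => congrArg (x ∈ ·) c
      simp only [mem_mv, eq_iff_iff] at c
      have lowT : ∀ x, 0 < x → x ≤ k' → x ∈ T := fun x x0 x1 => by
        by_contra hc
        obtain ⟨j, -, j2, j3⟩ := gap (Or.inl rfl) x0 hc
        have := uT j (by omega) j3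
        omega
      have upS : ∀ x y, k < x → x ∈ S → x < y → y ≤ m → y ∈ S := fun x y x0 x1 x2 x3 => by
        by_contra hc
        obtain ⟨j, j1, j2, j3⟩ := gap (Or.inr x1) x2 hc
        have := uS j (by omega) j3
        omega
      have k0 : k = 0 := by
        by_contra hc
        have := (c k).2 (Or.inr ⟨by omega, lowT k (by omega) hk.le⟩)
        omega
      subst k0
      have n1 : ¬ (k' = 0 + 1 ∨ k' ≠ 0 ∧ k' ∈ S) := fun h => by have := (c k').1 h; omega
      have n2 : k' ∉ S := fun h => n1 (Or.inr ⟨by omega, h⟩)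
      have k2 : k' = 2 := by
        by_contra hc
        have := (c 2).2 (Or.inr ⟨by omega, lowT 2 (by omega) (by omega)⟩)
        exact n2 (upS 2 k' (by omega) (this.resolve_left (by omega)).2 (by omega) hk'.le)
      subst k2
      have s3 : 3 ∈ S := (((c 3).2 (Or.inl rfl)).resolve_left (by omega)).2
      have : Icc 1 m \ S = {1, 2} := by
        ext x
        simp only [mem_sdiff, mem_Icc, mem_insert, mem_singleton]
        constructor
        · rintro ⟨p, q⟩
          by_contra hc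
          by_cases x3 : x = 3
          · exact q (x3 ▸ s3)
          · exact q (upS 3 x (by omega) s3 (by omega) p.2)
        · rintro (rfl | rfl)
          · exact ⟨by omega, a.2⟩
          · exact ⟨by omega, n2⟩
      have z := sum_sdiff (f := fun x => x) hS
      rw [this, sum_pair (by omega)] at z
      omega
    intro S T h hS e
    by_cases ne : S = T
    · exact Or.inl ne
    right
    have : ¬ Icc 1 m ⊆ S := fun hc => by
      have := sum_le_sum_of_subset (f := fun x => x) hc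
      omega
    obtain ⟨x, hx, hx'⟩ := not_subset.1 this
    obtain ⟨k, -, k2, k3⟩ := gap (Or.inl rfl) (mem_Icc.1 hx).1 hx'
    have hk := k2.trans_le (mem_Icc.1 hx).2
    obtain ⟨k', a, b, c, d⟩ := (un S T h ne hS e k hk k3).1
    rcases lt_or_gt_of_ne b with b | b
    · exact lt S T h ne hS e k k' b a k3 c d
    · have := h1 _ _ h
      exact lt T S (hs _ _ h) (Ne.symm ne) (bound' hs h0 h1 h2 h hS) (by omega) k' k b hk c k3 d.symm

theorem main {S T : Finset ℕ} (h : R S T) : S = T := by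
  have a : ∀ m, S.sup id ≤ m → S ⊆ Icc 1 m := fun m hm x hx =>
    mem_Icc.2 ⟨Nat.pos_of_ne_zero fun e => h0 _ _ h (e ▸ hx), (le_sup (f := id) hx).trans hm⟩
  obtain ⟨s, e⟩ := Nat.exists_eq_add_of_le (sum_le_sum_of_subset (f := fun x => x) (a _ le_rfl))
  rcases core hs h0 h1 h2 _ s S T h (a _ le_rfl) e.symm with r | r
  · exact r
  · refine (core hs h0 h1 h2 (S.sup id + 1) (s + (S.sup id + 1)) S T h (a _ (by omega)) ?_).resolve_right
      (by omega)
    rw [sum_Icc_succ_top (by omega)]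
    omega

end Pool.Agent.H.MP_c76eb3_co
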